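import Pool.Agent.ANO2.Defs
import Pool.Agent.ANO2.Core.Setup

/-!
# ANO phase 2: interface between the modules

* Geo2 + Cone2: `PAGeoStatement` (one pseudo-Anosov surface map);
* Idx2: `IndexStatement`, `RegularStatement`, `CountStatement` (products with a twisted torus part);
* `Main2`: `PAStatement` from these and the (ported) modules `Core`, `Dyn`.
* Dim: the case with identity factors.
-/

set_option autoImplicit false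

open Set Filter Topology
open scoped UpperHalfPlane MatrixGroups

namespace Pool.Agent.ANO2

open Pool.Agent.ANO

variable {r k : ℕ}

/-! ### One surface -/

/-- `T` is a lift of `f^n`. -/
def IsLift (S : SurfaceMap) (n : ℕ) (T : ℍ → ℍ) : Prop :=
  ∃ γ ∈ S.Γ, ∀ z, T z = γ • S.f^[n] z

/-- `H` fixes `w` and is `x + i y ↦ ± (L x + i L⁻¹ y)` in a local holomorphic coordinate. -/
def RegFixed (w : ℍ) (H : ℍ → ℍ) : Prop :=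
  H w = w ∧ Continuous H ∧ ∃ (D : ℂ → ℂ) (L : ℝ) (ε : ℂ), 1 < L ∧ (ε = 1 ∨ ε = -1) ∧
    AnalyticAt ℂ D (w : ℂ) ∧ deriv D (w : ℂ) ≠ 0 ∧
    ∀ᶠ z : ℍ in 𝓝 w, D (H z) - D w = ε * stretch L (D z - D w)

/-- `H` fixes the `n`-prong singularity `s` (`n ≥ 3`) and all the quadrants there: in a chart `ψ`
at `s` with `ψ^(n/2) = x + i y` it has the form `ψ ↦ ω ψ` with `|arg ω| < π / n` and
`(ω ψ)^(n/2) = L x + i L⁻¹ y`. -/
def ConeFixed (s : ℍ) (n : ℕ) (H : ℍ → ℍ) : Prop :=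
  H s = s ∧ Continuous H ∧ ∃ (ψ : ℂ → ℂ) (L : ℝ), 1 < L ∧ AnalyticAt ℂ ψ (s : ℂ) ∧
    ψ (s : ℂ) = 0 ∧ deriv ψ (s : ℂ) ≠ 0 ∧
    ∀ᶠ z : ℍ in 𝓝 s, ∃ ω : ℂ, |ω.arg| < Real.pi / n ∧ ψ (H z : ℂ) = ω * ψ (z : ℂ) ∧
      ∀ v : ℂ, v ^ 2 = ψ (z : ℂ) ^ n → (ω * ψ (z : ℂ)) ^ n = stretch L v ^ 2

/-- The local structure of a pseudo-Anosov surface map at an `n`-prong singularity, `n ≥ 3`, with
respect to the pseudo-distances `du`, `ds`. -/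
structure SurfCone (S : SurfaceMap) (du ds : ℍ → ℍ → ℝ) where
  n : ℕ
  three_le : 3 ≤ n
  s : ℍ
  m : ℕ
  m_pos : 0 < m
  H : ℍ → ℍ
  lift : IsLift S m H
  cone : ∀ j : ℕ, 0 < j → ConeFixed s n H^[j]
  XS : ZMod n → Set ℍ
  YS : ZMod n → Set ℍ
  adj : ∀ᶠ z in 𝓝 s, ∀ e e', z ∈ XS e → z ∈ YS e' → Core.Adj e e'
  closeX : ∃ V ∈ 𝓝 s, ∀ e, ∀ z' ∈ V, z' ∈ XS e → ∃ ε > 0, ∀ z ∈ V, du z z' < ε → z ∈ XS e
  closeY : ∃ V ∈ 𝓝 s, ∀ e, ∀ z' ∈ V, z' ∈ YS e → ∃ ε > 0, ∀ z ∈ V, ds z z' < ε → z ∈ YS e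
  invX : ∀ᶠ z in 𝓝 s, ∀ e, z ∈ XS e ↔ H z ∈ XS e
  invY : ∀ᶠ z in 𝓝 s, ∀ e, z ∈ YS e ↔ H z ∈ YS e
  dense : ∀ e e', Core.Adj e e' → ∀ V ∈ 𝓝 s, ∃ z ∈ V, z ∈ XS e ∧ z ∈ YS e' ∧
    ∃ (m' : ℕ) (H' : ℍ → ℍ), 0 < m' ∧ IsLift S m' H' ∧ ∀ j : ℕ, 0 < j → RegFixed z H'^[j]

/-- What is used about a pseudo-Anosov surface map. -/
structure PAGeo (S : SurfaceMap) where
  l : ℝ
  one_lt : 1 < l
  du : ℍ → ℍ → ℝ
  ds : ℍ → ℍ → ℝ
  du_nonneg : ∀ a b, 0 ≤ du a b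
  ds_nonneg : ∀ a b, 0 ≤ ds a b
  du_symm : ∀ a b, du a b = du b a
  ds_symm : ∀ a b, ds a b = ds b a
  du_triangle : ∀ a b c, du a c ≤ du a b + du b c
  ds_triangle : ∀ a b c, ds a c ≤ ds a b + ds b c
  du_inv : ∀ γ ∈ S.Γ, ∀ a b : ℍ, du (γ • a) (γ • b) = du a b
  ds_inv : ∀ γ ∈ S.Γ, ∀ a b : ℍ, ds (γ • a) (γ • b) = ds a b
  du_f : ∀ a b, du (S.f a) (S.f b) = l * du a b
  ds_f : ∀ a b, l * ds (S.f a) (S.f b) = ds a b
  upper : ∀ R : ℝ, ∃ C : ℝ, ∀ a b, dist a b ≤ R → du a b ≤ C ∧ ds a b ≤ C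
  proper : ∀ R : ℝ, ∃ C : ℝ, ∀ a b, du a b ≤ R → ds a b ≤ R → dist a b ≤ C
  eq_of_zero : ∀ a b, du a b = 0 → ds a b = 0 → a = b
  cone : SurfCone S du ds
  /-- there is a regular periodic point -/
  regular : ∃ (z : ℍ) (m : ℕ) (H : ℍ → ℍ), 0 < m ∧ IsLift S m H ∧
    ∀ j : ℕ, 0 < j → RegFixed z H^[j]

/-- Modules Geo2 and Cone2. -/
def PAGeoStatement : Prop :=
  ∀ (S : SurfaceMap) (q : ℂ → ℂ) (l : ℝ), IsPA S q l → Nonempty (PAGeo S)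

/-! ### Products -/

/-- The displacement of the lift `T₀ = g F₀^M0` of a power of the model is coercive and `T₀` has at
most one fixed point. -/
structure Tame (T₀ : X r k → X r k) : Prop where
  bdd : ∀ C : ℝ, ∃ R : ℝ, ∀ p p', dist p (T₀ p) ≤ C → dist p' (T₀ p') ≤ C → dist p p' ≤ R
  unique : ∀ p p', T₀ p = p → T₀ p' = p' → p = p'

/-- The lifts of powers of the model have the form `(z, t) ↦ (H_i z_i, B t + β z)`. -/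
structure Form (T₀ : X r k → X r k) where
  H : Fin r → ℍ → ℍ
  B : (Fin k → ℝ) →L[ℝ] (Fin k → ℝ)
  β : (Fin r → ℍ) → (Fin k → ℝ)
  cont : Continuous β
  hyp : ∀ u, B u = u → u = 0
  form : ∀ p, T₀ p = (fun i => H i (p.1 i), fun j => B p.2 j + β p.1 j)

/-- (S5): if the lift `g F^M` of a power of the Anosov diffeomorphism has a fixed point, then the
corresponding lift of the model has one. -/
def IndexStatement : Prop :=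
  ∀ (r k : ℕ) (S : Fin r → ClosedSurface) (F : X r k ≃ₜ X r k), IsAnosovLift S F →
    ∀ M : ℕ, 0 < M → ∀ G₀ : X r k → X r k, Continuous G₀ →
      Homotopic S G₀ (F ^ M : X r k ≃ₜ X r k) → ∀ g, IsDeck S k g → Tame (g ∘ G₀) →
        ∀ q, g ((F ^ M) q) = q → ∃ z, g (G₀ z) = z

/-- (S6)(i). -/
def RegularStatement : Prop :=
  ∀ (r k : ℕ) (S : Fin r → ClosedSurface) (F : X r k ≃ₜ X r k), IsAnosovLift S F →
    ∀ M : ℕ, 0 < M → ∀ G₀ : X r k → X r k, Continuous G₀ →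
      Homotopic S G₀ (F ^ M : X r k ≃ₜ X r k) → ∀ g, IsDeck S k g → Tame (g ∘ G₀) →
        ∀ Φ : Form (g ∘ G₀), ∀ w, g (G₀ w) = w → (∀ i, RegFixed (w.1 i) (Φ.H i)) →
          ∃ q, g ((F ^ M) q) = q

/-- (S6)(ii). -/
def CountStatement : Prop :=
  ∀ (r k : ℕ) (S : Fin r → ClosedSurface) (F : X r k ≃ₜ X r k), IsAnosovLift S F →
    ∀ M : ℕ, 0 < M → ∀ G₀ : X r k → X r k, Continuous G₀ →
      Homotopic S G₀ (F ^ M : X r k ≃ₜ X r k) → ∀ g, IsDeck S k g → Tame (g ∘ G₀) →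
        ∀ Φ : Form (g ∘ G₀), ∀ w, g (G₀ w) = w → ∀ (n : ℕ) (i0 : Fin r), 3 ≤ n →
          (∀ i, i ≠ i0 → RegFixed (w.1 i) (Φ.H i)) → ConeFixed (w.1 i0) n (Φ.H i0) →
            {q | g ((F ^ M) q) = q}.encard ≤ (n - 1 : ℕ)

end Pool.Agent.ANO2
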