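import Pool.Agent.ANO.Defs

/-!
# ANO phase 2: definitions

Anosov diffeomorphisms on `M = S₁ × ⋯ × S_r × T^k` in the homotopy classes
`(z, t) ↦ (f₁ z₁, …, f_r z_r, A t + τ z)` with `f_i` pseudo-Anosov (any holomorphic quadratic
differential) or isotopic to the identity, `A` hyperbolic, `τ` arbitrary.  `MP_5e77d9_an`, blueprint
`/team-store/ANO_Phase2.md`.

The notions which do not depend on the surfaces (`X r k`, `E r k`, `toE`, `dom`, `ofE`, `loc`, `tmap`,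
`tnorm`, `stretch`, `IsHyperbolicMatrix`) are those of `Pool.Agent.ANO`.
-/

set_option autoImplicit false

open scoped UpperHalfPlane MatrixGroups
open Set Filter Topology

namespace Pool.Agent.ANO2

open Pool.Agent.ANO

/-- A closed hyperbolic surface `Γ \ ℍ`: `Γ` is a subgroup of `SL(2, ℝ)` which acts on `ℍ` freely
(up to elements acting trivially), properly discontinuously and cocompactly. -/
structure ClosedSurface where
  Γ : Subgroup SL(2, ℝ)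
  free : ∀ γ ∈ Γ, ∀ z : ℍ, γ • z = z → ∀ w : ℍ, γ • w = w
  proper : ∀ K : Set ℍ, IsCompact K → {γ : SL(2, ℝ) | γ ∈ Γ ∧ ∃ z ∈ K, γ • z ∈ K}.Finite
  cocompact : ∃ K : Set ℍ, IsCompact K ∧ ∀ z : ℍ, ∃ γ ∈ Γ, γ • z ∈ K

/-- `q dz²` is (the lift to `ℍ` of) a nonzero holomorphic quadratic differential on the surface:
`q (γ z) (dγ/dz)² = q z`, where `dγ/dz = (c z + d)⁻²`. -/
structure IsQuadDiff (S : ClosedSurface) (q : ℂ → ℂ) : Prop where
  holo : DifferentiableOn ℂ q {z : ℂ | 0 < z.im}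
  nonzero : ∃ z : ℍ, q z ≠ 0
  equivar : ∀ γ ∈ S.Γ, ∀ z : ℍ,
    q ((γ • z : ℍ) : ℂ) = ((γ 1 0 : ℝ) * (z : ℂ) + (γ 1 1 : ℝ)) ^ 4 * q z

/-- A closed hyperbolic surface with a homeomorphism, given by a lift `f` to `ℍ`. -/
structure SurfaceMap extends ClosedSurface where
  f : ℍ ≃ₜ ℍ
  normalizes : ∀ γ ∈ Γ, ∃ γ' ∈ Γ, ∀ z : ℍ, f (γ • z) = γ' • f z
  normalizes' : ∀ γ' ∈ Γ, ∃ γ ∈ Γ, ∀ z : ℍ, f (γ • z) = γ' • f z

/-- In natural coordinates of `q` (primitives of branches of `√q`) at `z` and at `f z` the map `f`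
is `x + i y ↦ l x + i l⁻¹ y`. -/
def IsAffineAt (q : ℂ → ℂ) (f : ℍ → ℍ) (l : ℝ) (z : ℍ) : Prop :=
  ∃ D₁ D₂ : ℂ → ℂ, AnalyticAt ℂ D₁ (z : ℂ) ∧ AnalyticAt ℂ D₂ (f z : ℂ) ∧
    (∀ᶠ w in 𝓝 (z : ℂ), deriv D₁ w ^ 2 = q w) ∧ (∀ᶠ w in 𝓝 (f z : ℂ), deriv D₂ w ^ 2 = q w) ∧
    ∀ᶠ w : ℍ in 𝓝 z, D₂ (f w) = stretch l (D₁ w)

/-- `f` is a pseudo-Anosov homeomorphism with respect to the quadratic differential `q` with the
stretch factor `l > 1`: it preserves the set of zeros of `q` and is `x + i y ↦ l x + i l⁻¹ y` in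
natural coordinates at the other points. -/
structure IsPA (S : SurfaceMap) (q : ℂ → ℂ) (l : ℝ) : Prop where
  quad : IsQuadDiff S.toClosedSurface q
  one_lt : 1 < l
  zeros : ∀ z : ℍ, q z = 0 ↔ q (S.f z) = 0
  affine : ∀ z : ℍ, q z ≠ 0 → IsAffineAt q S.f l z

/-- `f` is isotopic to the identity: a lift of the identity map has the same homotopy class as
`f`. -/
def IsInner (S : SurfaceMap) : Prop := ∃ γ ∈ S.Γ, ∀ z : ℍ, S.f z = γ • z

variable {r k : ℕ}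

/-- Deck transformations of `X r k → S₁ × ⋯ × S_r × T^k`. -/
def IsDeck (S : Fin r → ClosedSurface) (k : ℕ) (g : X r k → X r k) : Prop :=
  ∃ (γ : Fin r → SL(2, ℝ)) (v : Fin k → ℤ), (∀ i, γ i ∈ (S i).Γ) ∧
    ∀ p, g p = (fun i => γ i • p.1 i, fun j => p.2 j + v j)

/-- `τ : ℍ^r → ℝ^k` induces a continuous map `S₁ × ⋯ × S_r → T^k`. -/
structure IsTwist (S : Fin r → ClosedSurface) (τ : (Fin r → ℍ) → (Fin k → ℝ)) : Prop where
  cont : Continuous τ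
  equivar : ∀ γ : Fin r → SL(2, ℝ), (∀ i, γ i ∈ (S i).Γ) → ∃ v : Fin k → ℤ,
    ∀ z : Fin r → ℍ, τ (fun i => γ i • z i) = fun j => τ z j + v j

/-- The model map `(z, t) ↦ (f₁ z₁, …, f_r z_r, A t + τ z)`. -/
noncomputable def model (S : Fin r → SurfaceMap) (A : Matrix (Fin k) (Fin k) ℤ)
    (τ : (Fin r → ℍ) → (Fin k → ℝ)) (p : X r k) : X r k :=
  (fun i => (S i).f (p.1 i), fun j => (A.map (Int.cast : ℤ → ℝ)).mulVec p.2 j + τ p.1 j)

/-- `G : X → X` descends to a continuous map of `M` which is homotopic to the map induced by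
`G₀`. -/
def Homotopic (S : Fin r → ClosedSurface) (G₀ G : X r k → X r k) : Prop :=
  ∀ g, IsDeck S k g → ∃ g', IsDeck S k g' ∧ G₀ ∘ g = g' ∘ G₀ ∧ G ∘ g = g' ∘ G

/-- `F` is a lift to the universal cover `X r k` of a `C¹` Anosov diffeomorphism of the closed
manifold `M = S₁ × ⋯ × S_r × T^k` (as in `Pool.Agent.ANO.IsAnosovLift`). -/
def IsAnosovLift (S : Fin r → ClosedSurface) (F : X r k ≃ₜ X r k) : Prop :=
  ContDiffOn ℝ 1 (loc F) (dom r k) ∧ ContDiffOn ℝ 1 (loc F.symm) (dom r k) ∧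
  (∀ g, IsDeck S k g → ∃ g', IsDeck S k g' ∧ F ∘ g = g' ∘ F) ∧
  (∀ g', IsDeck S k g' → ∃ g, IsDeck S k g ∧ F ∘ g = g' ∘ F) ∧
  ∃ P : X r k → (E r k →L[ℝ] E r k), Continuous P ∧ (∀ p, P p ∘L P p = P p) ∧
    (∀ g, IsDeck S k g → ∀ p, P (g p) ∘L tmap g p = tmap g p ∘L P p) ∧
    (∀ p, P (F p) ∘L tmap F p = tmap F p ∘L P p) ∧
    ∃ C μ : ℝ, 0 < C ∧ 0 < μ ∧ μ < 1 ∧ ∀ (n : ℕ) (p : X r k) (v : E r k),
      (P p v = 0 → tnorm ((F ^ n) p) (tmap (F ^ n : X r k ≃ₜ X r k) p v) ≤ C * μ ^ n * tnorm p v) ∧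
      (P p v = v → tnorm ((F ^ n).symm p) (tmap (F ^ n : X r k ≃ₜ X r k).symm p v) ≤
        C * μ ^ n * tnorm p v)

/-- The surfaces of a family of surface maps. -/
def surf (S : Fin r → SurfaceMap) (i : Fin r) : ClosedSurface := (S i).toClosedSurface

/-- The statement of phase 2. -/
def MainStatement : Prop :=
  ∀ (r k : ℕ), 0 < r → ∀ S : Fin r → SurfaceMap,
    (∀ i, (∃ q l, IsPA (S i) q l) ∨ IsInner (S i)) → ∀ A : Matrix (Fin k) (Fin k) ℤ,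
      IsHyperbolicMatrix A → ∀ τ : (Fin r → ℍ) → (Fin k → ℝ), IsTwist (surf S) τ →
        ∀ F : X r k ≃ₜ X r k, IsAnosovLift (surf S) F → ∀ n : ℕ, 0 < n →
          ¬ Homotopic (surf S) (model S A τ) (F ^ n : X r k ≃ₜ X r k)

/-- The same when all the surface maps are pseudo-Anosov. -/
def PAStatement : Prop :=
  ∀ (r k : ℕ), 0 < r → ∀ S : Fin r → SurfaceMap,
    (∀ i, ∃ q l, IsPA (S i) q l) → ∀ A : Matrix (Fin k) (Fin k) ℤ,
      IsHyperbolicMatrix A → ∀ τ : (Fin r → ℍ) → (Fin k → ℝ), IsTwist (surf S) τ →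
        ∀ F : X r k ≃ₜ X r k, IsAnosovLift (surf S) F → ∀ n : ℕ, 0 < n →
          ¬ Homotopic (surf S) (model S A τ) (F ^ n : X r k ≃ₜ X r k)

end Pool.Agent.ANO2
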